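import Mathlib
import Pool.Agent.R293.VP2

/-!
# MP_123484_an: the state on `𝒪_∞ *_r C^{*_r ∞}` matters

There are a separable simple purely infinite unital C*-algebra `C` (in fact `C = 𝒪_∞`), a state `σ`
on `C` and a state `ω` on `𝒪_∞` such that no isomorphism from the reduced free product of
`(𝒪_∞, ω)` and `(C^{*_r ∞}, σ^{*∞})` to `C^{*_r ∞}` carries the free product state to `σ^{*∞}`.

`σ` is the vacuum state of `𝒪_∞`: `C^{*_r ∞}` is generated by isometries `S_i` with orthogonal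
ranges and `σ^{*∞}(S_i S_i*) = 0`, so that `σ^{*∞}(x h) = σ^{*∞}(x) σ^{*∞}(h)` for all `h` in the
centralizer of `σ^{*∞}`.  But some projection `p` in the centralizer of `ω` has `ω(p) = 1/2`, and
`p` is in the centralizer of the free product state.
-/

set_option autoImplicit false

namespace Pool.Agent.Results.MP_123484_an.NoStateIso

/-- `B` is simple: `B ≠ 0` and every closed two-sided ideal is `0` or `B`. -/
def Simple (B : Type) [CStarAlgebra B] : Prop :=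
  Nontrivial B ∧ ∀ I : TwoSidedIdeal B, IsClosed (I : Set B) → I = ⊥ ∨ I = ⊤

/-- `p` is an infinite projection: it is Murray–von Neumann equivalent to a proper subprojection
`w w*` of itself. -/
def InfiniteProjection {B : Type} [CStarAlgebra B] (p : B) : Prop :=
  star p = p ∧ p * p = p ∧
    ∃ w : B, star w * w = p ∧ p * (w * star w) = w * star w ∧ w * star w ≠ p

/-- `H` is a hereditary C*-subalgebra of `B`: a closed `*`-subalgebra such that `0 ≤ y ≤ x` and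
`x ∈ H` imply `y ∈ H`; here `y = c* c` and `x - y = d* d`. -/
def Hereditary {B : Type} [CStarAlgebra B] (H : NonUnitalStarSubalgebra ℂ B) : Prop :=
  IsClosed (H : Set B) ∧ ∀ c d : B, star c * c + star d * d ∈ H → star c * c ∈ H

/-- Pure infiniteness: every nonzero hereditary C*-subalgebra contains an infinite projection. -/
def PurelyInfinite (B : Type) [CStarAlgebra B] : Prop :=
  ∀ H : NonUnitalStarSubalgebra ℂ B, Hereditary H → (∃ b ∈ H, b ≠ 0) →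
    ∃ p ∈ H, InfiniteProjection p

/-- `O` is the Cuntz algebra `𝒪_∞`: a nonzero unital C*-algebra generated by a sequence of
isometries with mutually orthogonal ranges. -/
def IsCuntzInfinity (O : Type) [CStarAlgebra O] : Prop :=
  Nontrivial O ∧ ∃ s : ℕ → O, (∀ i, star (s i) * s i = 1) ∧ (∀ i j, i ≠ j → star (s i) * s j = 0) ∧
    (StarAlgebra.adjoin ℂ (Set.range s)).topologicalClosure = ⊤

/-- `μ` is a state. -/
def IsState {D : Type} [CStarAlgebra D] (μ : D →ₗ[ℂ] ℂ) : Prop :=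
  μ 1 = 1 ∧ ∀ x, 0 ≤ (μ (star x * x)).re ∧ (μ (star x * x)).im = 0

/-- `(D, ρ)`, with the embeddings `e j`, is the reduced free product of the `(A j, ω j)`: `ρ` is a
state, `ρ ∘ e j = ω j`, the copies `e j (A j)` are free with respect to `ρ` (`ρ` vanishes on the
products `e j₁ x₁ ⋯ e jₙ xₙ`, `n ≥ 1`, with `j₁ ≠ j₂ ≠ ⋯` and `ω j₁ x₁ = ⋯ = ω jₙ xₙ = 0`) and
generate `D`, and the GNS representation of `ρ` is faithful. -/
structure IsReducedFreeProduct {J : Type} (A : J → Type) [∀ j, CStarAlgebra (A j)]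
    (ω : ∀ j, A j →ₗ[ℂ] ℂ) {D : Type} [CStarAlgebra D] (ρ : D →ₗ[ℂ] ℂ)
    (e : ∀ j, A j →⋆ₐ[ℂ] D) : Prop where
  state : IsState ρ
  restrict : ∀ j x, ρ (e j x) = ω j x
  free : ∀ w : List (Σ j, A j), w ≠ [] → w.IsChain (fun a b => a.1 ≠ b.1) →
    (∀ z ∈ w, ω z.1 z.2 = 0) → ρ ((w.map fun z => e z.1 z.2).prod) = 0
  generate : (StarAlgebra.adjoin ℂ (⋃ j, Set.range (e j))).topologicalClosure = ⊤
  gns_faithful : ∀ a, (∀ x, ρ (star (a * x) * (a * x)) = 0) → a = 0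

/-- `(D, ρ)` is the reduced free product of countably infinitely many copies of `(C, σ)`. -/
def IsFreePower {C : Type} [CStarAlgebra C] (σ : C →ₗ[ℂ] ℂ) {D : Type} [CStarAlgebra D]
    (ρ : D →ₗ[ℂ] ℂ) : Prop :=
  ∃ e : ℕ → C →⋆ₐ[ℂ] D, IsReducedFreeProduct (fun _ : ℕ => C) (fun _ => σ) ρ e

/-- The family of two algebras `A` and `B`. -/
def Two (A B : Type) : Bool → Type
  | true => A
  | false => B

instance twoCStar (A B : Type) [CStarAlgebra A] [CStarAlgebra B] : ∀ b, CStarAlgebra (Two A B b)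
  | true => (inferInstance : CStarAlgebra A)
  | false => (inferInstance : CStarAlgebra B)

/-- The family of two functionals `φ` and `ψ`. -/
def twoFun {A B : Type} [CStarAlgebra A] [CStarAlgebra B] (φ : A →ₗ[ℂ] ℂ) (ψ : B →ₗ[ℂ] ℂ) :
    ∀ b, Two A B b →ₗ[ℂ] ℂ
  | true => φ
  | false => ψ

/-- `(D, ρ)` is the reduced free product of `(A, φ)` and `(B, ψ)`. -/
def IsFreeProduct {A B : Type} [CStarAlgebra A] [CStarAlgebra B] (φ : A →ₗ[ℂ] ℂ)
    (ψ : B →ₗ[ℂ] ℂ) {D : Type} [CStarAlgebra D] (ρ : D →ₗ[ℂ] ℂ) : Prop :=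
  ∃ e : ∀ b, Two A B b →⋆ₐ[ℂ] D, IsReducedFreeProduct (Two A B) (twoFun φ ψ) ρ e

section conversions

open scoped ComplexOrder

lemma state_of {D : Type} [CStarAlgebra D] {μ : D →ₗ[ℂ] ℂ} (h1 : μ 1 = 1)
    (h2 : ∀ x, 0 ≤ μ (star x * x)) : IsState μ := by
  refine ⟨h1, fun x => ?_⟩
  have h := h2 x
  rw [Complex.nonneg_iff] at h
  exact ⟨h.1, h.2.symm⟩

lemma IsState.nonneg {D : Type} [CStarAlgebra D] {μ : D →ₗ[ℂ] ℂ} (h : IsState μ) (x : D) :
    0 ≤ μ (star x * x) := by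
  rw [Complex.nonneg_iff]
  exact ⟨(h.2 x).1, (h.2 x).2.symm⟩

lemma to_rfp {J : Type} {A : J → Type} [∀ j, CStarAlgebra (A j)] {ω : ∀ j, A j →ₗ[ℂ] ℂ}
    {D : Type} [CStarAlgebra D] {ρ : D →ₗ[ℂ] ℂ} {e : ∀ j, A j →⋆ₐ[ℂ] D}
    (h : IsReducedFreeProduct A ω ρ e) :
    Pool.Agent.H923R2.FZ.IsRFP A (fun j => (ω j : A j → ℂ)) ρ e where
  one := h.state.1
  nonneg := h.state.nonneg
  tr := h.restrict
  free := h.free
  gen := h.generate
  gns := h.gns_faithful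

lemma of_rfp {J : Type} {A : J → Type} [∀ j, CStarAlgebra (A j)] {ω : ∀ j, A j →ₗ[ℂ] ℂ}
    {D : Type} [CStarAlgebra D] {ρ : D →ₗ[ℂ] ℂ} {e : ∀ j, A j →⋆ₐ[ℂ] D}
    (h : Pool.Agent.H923R2.FZ.IsRFP A (fun j => (ω j : A j → ℂ)) ρ e) :
    IsReducedFreeProduct A ω ρ e where
  state := state_of h.one h.nonneg
  restrict := h.tr
  free := h.free
  generate := h.gen
  gns_faithful := h.gns

lemma exists_product {A B : Type} [CStarAlgebra A] [CStarAlgebra B] {φ : A →ₗ[ℂ] ℂ}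
    {ψ : B →ₗ[ℂ] ℂ} (h1 : IsState φ) (h2 : IsState ψ) :
    ∃ (D : Type) (_ : CStarAlgebra D) (ρ : D →ₗ[ℂ] ℂ), IsFreeProduct φ ψ ρ := by
  obtain ⟨D, i, ρ, e, h⟩ := Pool.Agent.R293.RFP.ex Bool (Two A B) (twoFun φ ψ)
    (fun b => match b with
      | true => h1.1
      | false => h2.1)
    (fun b => match b with
      | true => h1.nonneg
      | false => h2.nonneg)
  exact ⟨D, i, ρ, e, of_rfp h⟩

lemma exists_power {C : Type} [CStarAlgebra C] {σ : C →ₗ[ℂ] ℂ} (h : IsState σ) :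
    ∃ (D : Type) (_ : CStarAlgebra D) (ρ : D →ₗ[ℂ] ℂ), IsFreePower σ ρ := by
  obtain ⟨D, i, ρ, e, h⟩ := Pool.Agent.R293.RFP.ex ℕ (fun _ => C) (fun _ => σ) (fun _ => h.1)
    (fun _ => h.nonneg)
  exact ⟨D, i, ρ, e, of_rfp h⟩

end conversions

/-- There are a separable simple purely infinite unital C*-algebra `C` with a state `σ` and a state
`ω` on `𝒪_∞` such that, `(E, φ)` being the infinite reduced free power of `(C, σ)` and `(B, ψ)` the
reduced free product of `(𝒪_∞, ω)` and `(E, φ)` (both exist), no isomorphism `θ : B → E` satisfies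
`φ ∘ θ = ψ`. -/
theorem result :
    ∃ (C : Type) (_ : CStarAlgebra C) (σ : C →ₗ[ℂ] ℂ) (O : Type) (_ : CStarAlgebra O)
      (ω : O →ₗ[ℂ] ℂ),
      TopologicalSpace.SeparableSpace C ∧ Simple C ∧ PurelyInfinite C ∧ IsState σ ∧
      IsCuntzInfinity O ∧ IsState ω ∧
      (∃ (E : Type) (_ : CStarAlgebra E) (φ : E →ₗ[ℂ] ℂ), IsFreePower σ φ) ∧
      ∀ (E : Type) [CStarAlgebra E] (φ : E →ₗ[ℂ] ℂ), IsFreePower σ φ →
        (∃ (B : Type) (_ : CStarAlgebra B) (ψ : B →ₗ[ℂ] ℂ), IsFreeProduct ω φ ψ) ∧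
        ∀ (B : Type) [CStarAlgebra B] (ψ : B →ₗ[ℂ] ℂ), IsFreeProduct ω φ ψ →
          ¬ ∃ θ : B ≃⋆ₐ[ℂ] E, ∀ x, φ (θ x) = ψ x := by
  have hs1 : IsState Pool.Agent.R293.VP.om1 :=
    state_of Pool.Agent.R293.VP.om1_one Pool.Agent.R293.VP.om1_nonneg
  have hs2 : IsState Pool.Agent.R293.VP.om2 :=
    state_of Pool.Agent.R293.VP.om2_one Pool.Agent.R293.VP.om2_nonneg
  refine ⟨Pool.Agent.R293.OI.OO, inferInstance, Pool.Agent.R293.VP.om1, Pool.Agent.R293.OI.OO,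
    inferInstance, Pool.Agent.R293.VP.om2, Pool.Agent.R293.OI.OO_sep,
    Pool.Agent.R293.OI.OO_simple, Pool.Agent.R293.OI.OO_pi, hs1, Pool.Agent.R293.OI.OO_cuntz,
    hs2, exists_power hs1, ?_⟩
  rintro E _ φ ⟨e, he⟩
  refine ⟨exists_product hs2 he.state, ?_⟩
  rintro B _ ψ ⟨f, hf⟩ ⟨θ, hθ⟩
  refine Pool.Agent.R293.VP.no_state_iso (to_rfp he) (to_rfp hf) true
    (Pool.Agent.R293.VP.pr : Pool.Agent.R293.OI.OO) Pool.Agent.R293.VP.om2_pr ?_ θ hθ
  show Pool.Agent.R293.VP.om2 (Pool.Agent.R293.VP.pr * Pool.Agent.R293.VP.pr) ≠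
    Pool.Agent.R293.VP.om2 Pool.Agent.R293.VP.pr * Pool.Agent.R293.VP.om2 Pool.Agent.R293.VP.pr
  rw [Pool.Agent.R293.VP.pr_pr, Pool.Agent.R293.VP.om2_pr_val]
  norm_num

end Pool.Agent.Results.MP_123484_an.NoStateIso
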